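import Pool.Agent.helper65.NTC.Spec

/-!
# MP_c8d30a (A), section 4: four nested blue letters in a gap which is not the end gap
-/

set_option autoImplicit false

namespace NTC

open NTH

universe u
variable {Ω : Type u} {p : Ω → Ω} {Dr : St Ω → Prop}

theorem NEST_perm {s t : St Ω} (h : Gd p s) (h1 : s.1.Perm t.1) (h2 : s.2.Perm t.2) : Gd p t := by
  have hp : (s.1 ++ s.2).Perm (t.1 ++ t.2) := h1.append h2
  exact ⟨hp.nodup_iff.mp h.nd, fun x hx => hp.mem_iff.mp (h.cl x (hp.mem_iff.mpr hx))⟩

theorem NEST_rot (hD : DrC p Dr) {X Y B : List Ω} (h : Gd p (Y ++ X, B) → Dr (Y ++ X, B))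
    (hG : Gd p (X ++ Y, B)) : Dr (X ++ Y, B) := by
  have hG' : Gd p (Y ++ X, B) := NEST_perm hG List.perm_append_comm (List.Perm.refl _)
  exact hD.rot Y X B hG' (h hG')

/-- the last element with a property. -/
theorem NEST_last (P : Ω → Prop) : ∀ L : List Ω, (∃ t ∈ L, P t) →
    ∃ (L1 : List Ω) (t : Ω) (L2 : List Ω), L = L1 ++ t :: L2 ∧ P t ∧ ∀ s ∈ L2, ¬ P s
  | [], h => by
    obtain ⟨t, ht, -⟩ := h
    simp at ht
  | a :: L, h => by
    by_cases hL : ∃ t ∈ L, P t
    · obtain ⟨L1, t, L2, h1, h2, h3⟩ := NEST_last P L hL
      exact ⟨a :: L1, t, L2, by rw [h1]; rfl, h2, h3⟩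
    · obtain ⟨t, ht, hPt⟩ := h
      rcases List.mem_cons.mp ht with rfl | ht
      · exact ⟨[], t, L, rfl, hPt, fun s hs hPs => hL ⟨s, hs, hPs⟩⟩
      · exact absurd ⟨t, ht, hPt⟩ hL

/-- the two tokens of a letter in a word. -/
theorem NEST_two (hinv : ∀ t, p (p t) = t) (hne : ∀ t, p t ≠ t) {x : Ω} {L : List Ω} (hx : x ∈ L) (hpx : p x ∈ L) :
    ∃ (y : Ω) (Q R S : List Ω), L = Q ++ y :: R ++ p y :: S := by
  obtain ⟨Q, T, rfl⟩ := List.append_of_mem hx
  rcases List.mem_append.mp hpx with h | h
  · obtain ⟨Q1, Q2, rfl⟩ := List.append_of_mem h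
    exact ⟨p x, Q1, Q2, T, by rw [hinv]⟩
  · rcases List.mem_cons.mp h with h | h
    · exact absurd h (hne x)
    · obtain ⟨R, S, rfl⟩ := List.append_of_mem h
      exact ⟨x, Q, R, S, by simp⟩

theorem NEST_al (hB : BlueC p Dr) (hinv : ∀ t, p (p t) = t) (hne : ∀ t, p t ≠ t) (c d x u v w z : Ω)
    (L I J : List Ω) (hd : p d ∈ I) (hc : p c ∈ J) (hx : x ∈ L) (hpx : p x ∈ L)
    (hG : Gd p (c :: d :: L, I ++ u :: v :: w :: z :: p z :: p w :: p v :: p u :: J)) :
    Dr (c :: d :: L, I ++ u :: v :: w :: z :: p z :: p w :: p v :: p u :: J) := by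
  obtain ⟨I1, K, rfl⟩ := List.append_of_mem hd
  obtain ⟨J1, J2, rfl⟩ := List.append_of_mem hc
  obtain ⟨y, Q, R, S, rfl⟩ := NEST_two hinv hne hx hpx
  have := hB.AL c d y u v w z Q R S I1 K J1 J2 (by simpa using hG)
  simpa using this

theorem NEST_p1 (hB : BlueC p Dr) (c y u v w z : Ω) (L I J : List Ω) (hy : p y ∈ L)
    (hG : Gd p (c :: y :: L, I ++ u :: v :: w :: z :: p z :: p w :: p v :: p u :: p c :: J)) :
    Dr (c :: y :: L, I ++ u :: v :: w :: z :: p z :: p w :: p v :: p u :: p c :: J) := by
  obtain ⟨Q, R, rfl⟩ := List.append_of_mem hy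
  have := hB.P1 c y u v Q R I [w, z, p z, p w] J (by simpa using hG)
  simpa using this

/-- delete the innermost letter of a nest. -/
theorem NEST_del (hD : DrC p Dr) (hinv : ∀ t, p (p t) = t) (z : Ω) (A C1 C2 : List Ω)
    (hG : Gd p (A, C1 ++ z :: p z :: C2)) (h : Gd p (A, C1 ++ C2) → Dr (A, C1 ++ C2)) :
    Dr (A, C1 ++ z :: p z :: C2) := by
  classical
  have hnd := hG.nd
  have hz : ∀ t ∈ A ++ (C1 ++ C2), t ≠ z ∧ t ≠ p z := by
    intro t ht
    have h1 : (z :: p z :: (A ++ (C1 ++ C2))).Nodup := by
      refine (List.Perm.nodup_iff ?_).mp hnd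
      show (A ++ (C1 ++ z :: p z :: C2)).Perm _
      rw [← List.append_assoc, ← List.append_assoc]
      exact List.perm_middle.trans (List.Perm.cons _ List.perm_middle)
    rw [List.nodup_cons, List.nodup_cons] at h1
    refine ⟨?_, ?_⟩
    · rintro rfl
      exact h1.1 (List.mem_cons_of_mem _ ht)
    · rintro rfl
      exact h1.2.1 ht
  have hG' : Gd p (A, C1 ++ C2) := by
    refine ⟨?_, ?_⟩
    · refine hnd.sublist ?_
      show (A ++ (C1 ++ C2)).Sublist (A ++ (C1 ++ z :: p z :: C2))
      refine List.Sublist.append_left (List.Sublist.append_left ?_ _) _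
      exact (List.sublist_cons_self _ _).trans (List.sublist_cons_self _ _)
    · intro t ht
      have h1 : p t ∈ A ++ (C1 ++ z :: p z :: C2) := hG.cl t (by
        show t ∈ A ++ (C1 ++ z :: p z :: C2)
        have : t ∈ A ++ (C1 ++ C2) := ht
        simp only [List.mem_append, List.mem_cons] at this ⊢
        tauto)
      obtain ⟨h2, h3⟩ := hz t ht
      have h4 : p t ≠ z := fun h => h3 (by rw [← h, hinv])
      have h5 : p t ≠ p z := fun h => h2 (by rw [← hinv t, h, hinv])
      show p t ∈ A ++ (C1 ++ C2)
      simp only [List.mem_append, List.mem_cons] at h1 ⊢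
      tauto
  have hfilt : ∀ L : List Ω, (∀ t ∈ L, t ≠ z ∧ t ≠ p z) →
      L.filter (fun t => decide (t ≠ z ∧ t ≠ p z)) = L := by
    intro L hL
    rw [List.filter_eq_self]
    intro t ht
    exact decide_eq_true (hL t ht)
  refine hD.lift (fun t => decide (t ≠ z ∧ t ≠ p z)) A _ hG ?_ ?_ ?_
  · intro t
    have h1 : (p t ≠ z ∧ p t ≠ p z) ↔ (t ≠ z ∧ t ≠ p z) := by
      constructor
      · rintro ⟨h1, h2⟩
        exact ⟨fun h => h2 (by rw [h]), fun h => h1 (by rw [h, hinv])⟩
      · rintro ⟨h1, h2⟩
        exact ⟨fun h => h2 (by rw [← h, hinv]), fun h => h1 (by rw [← hinv t, h, hinv])⟩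
    simp only [h1]
  · intro t ht _
    exact decide_eq_true (hz t (List.mem_append_left _ ht))
  · have e1 : A.filter (fun t => decide (t ≠ z ∧ t ≠ p z)) = A :=
      hfilt A fun t ht => hz t (List.mem_append_left _ ht)
    have e2 : (C1 ++ z :: p z :: C2).filter (fun t => decide (t ≠ z ∧ t ≠ p z)) = C1 ++ C2 := by
      rw [List.filter_append, List.filter_cons_of_neg (by simp), List.filter_cons_of_neg (by simp),
        hfilt C1 fun t ht => hz t (List.mem_append_right _ (List.mem_append_left _ ht)),
        hfilt C2 fun t ht => hz t (List.mem_append_right _ (List.mem_append_right _ ht))]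
    rw [e1, e2]
    exact h hG'

/-- the case in which a mixed token is before the cluster. -/
theorem NEST_I (hD : DrC p Dr) (hB : BlueC p Dr) (hinv : ∀ t, p (p t) = t) (hne : ∀ t, p t ≠ t)
    (x u v w z d : Ω) (A I J : List Ω) (hd : p d ∈ I) (hx : x ∈ A) (hpx : p x ∈ A)
    (hA : ∀ t ∈ A, t = x ∨ t = p x ∨ p t ∈ I ∨ p t ∈ J) (hJA : ∀ t ∈ J, p t ∈ A) (hJ : J ≠ [])
    (hG : Gd p (d :: A, I ++ u :: v :: w :: z :: p z :: p w :: p v :: p u :: J)) :
    Dr (d :: A, I ++ u :: v :: w :: z :: p z :: p w :: p v :: p u :: J) := by
  -- disjointness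
  have hdis : ∀ t ∈ A, t ∉ J := by
    intro t ht htJ
    have h1 := hG.nd
    rw [List.nodup_append] at h1
    exact h1.2.2 t (List.mem_cons_of_mem _ ht) t (by simp [htJ]) rfl
  have hxJ : p x ∉ J := hdis _ hpx
  have hxJ' : x ∉ J := hdis _ hx
  obtain ⟨A1, c, A2, rfl, hc, hA2⟩ := NEST_last (fun t => p t ∈ J) A (by
    obtain ⟨j, hj⟩ := List.exists_mem_of_ne_nil J hJ
    exact ⟨p j, hJA j hj, by simpa only [hinv] using hj⟩)
  have hcx : c ≠ x := by rintro rfl; exact hxJ hc
  have hcpx : c ≠ p x := by rintro rfl; rw [hinv] at hc; exact hxJ' hc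
  cases A2 with
  | nil =>
    have hx1 : x ∈ A1 := by
      simp only [List.mem_append, List.mem_singleton] at hx
      exact hx.resolve_right (fun h => hcx h.symm)
    have hpx1 : p x ∈ A1 := by
      simp only [List.mem_append, List.mem_singleton] at hpx
      exact hpx.resolve_right (fun h => hcpx h.symm)
    have h1 := NEST_rot hD (X := d :: A1) (Y := [c]) (B := I ++ u :: v :: w :: z :: p z :: p w :: p v :: p u :: J)
      (fun h => by simpa using NEST_al hB hinv hne c d x u v w z A1 I J hd hc hx1 hpx1 (by simpa using h))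
      (by simpa using hG)
    simpa using h1
  | cons h A2 =>
    -- the rest of the word after `c h`
    have hrest : ∀ t ∈ A1 ++ c :: h :: A2, t ≠ c → t ≠ h → t ∈ A2 ++ d :: A1 := by
      intro t ht h1 h2
      simp only [List.mem_append, List.mem_cons] at ht ⊢
      tauto
    have hmem : h ∈ A1 ++ c :: h :: A2 := by simp
    have hbe : p h ∈ A1 ++ c :: h :: A2 → h = x ∨ h = p x → Dr (d :: (A1 ++ c :: h :: A2), I ++ u :: v :: w :: z :: p z :: p w :: p v :: p u :: J) := by
      intro hph hhx
      have hphc : p h ≠ c := by
        rintro h1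
        rcases hhx with rfl | rfl
        · exact hcpx h1.symm
        · rw [hinv] at h1; exact hcx h1.symm
      cases J with
      | nil => exact absurd rfl hJ
      | cons j J =>
        by_cases hj : j = p c
        · subst hj
          have h1 := NEST_rot hD (X := d :: A1) (Y := c :: h :: A2)
            (B := I ++ u :: v :: w :: z :: p z :: p w :: p v :: p u :: p c :: J)
            (fun hh => by
              simpa using NEST_p1 hB c h u v w z (A2 ++ d :: A1) I J (hrest _ hph hphc (hne h)) (by simpa using hh))
            (by simpa using hG)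
          simpa using h1
        · -- triple swap
          have hs : p j ∈ A1 := by
            have h1 := hJA j (by simp)
            rcases List.mem_append.mp h1 with h2 | h2
            · exact h2
            · exfalso
              rcases List.mem_cons.mp h2 with h3 | h3
              · exact hj (by rw [← h3, hinv])
              · exact hA2 _ h3 (by rw [hinv]; simp)
          have hc' : p c ∈ J := by
            rcases List.mem_cons.mp hc with h1 | h1
            · exact absurd h1.symm hj
            · exact h1
          obtain ⟨s, hsj⟩ : ∃ s, s = p j := ⟨_, rfl⟩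
          have hjs : j = p s := by rw [hsj, hinv]
          rw [← hsj] at hs
          subst hjs
          obtain ⟨S1, S2, rfl⟩ := List.append_of_mem hs
          obtain ⟨J1, J2, rfl⟩ := List.append_of_mem hc'
          obtain ⟨I1, I2, rfl⟩ := List.append_of_mem hd
          have h1 := hD.cm d s c S1 S2 (h :: A2) I1 (I2 ++ [u, v, w, z, p z, p w, p v, p u]) J1 J2
            (by simpa using hG) (by
              have hG2 : Gd p (s :: S2 ++ (d :: S1 ++ c :: (h :: A2)),
                  I1 ++ (p s :: J1 ++ (p d :: (I2 ++ [u, v, w, z, p z, p w, p v, p u]) ++ p c :: J2))) := by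
                refine NEST_perm hG ?_ ?_
                · show (d :: ((S1 ++ s :: S2) ++ c :: h :: A2)).Perm (s :: S2 ++ (d :: S1 ++ c :: (h :: A2)))
                  have h2 : (d :: ((S1 ++ s :: S2) ++ c :: h :: A2)) = (d :: S1) ++ ((s :: S2) ++ (c :: h :: A2)) := by simp
                  have h3 : (s :: S2 ++ (d :: S1 ++ c :: (h :: A2))) = (s :: S2) ++ ((d :: S1) ++ (c :: h :: A2)) := by simp
                  rw [h2, h3]
                  exact List.perm_append_comm_assoc _ _ _
                · show ((I1 ++ p d :: I2) ++ u :: v :: w :: z :: p z :: p w :: p v :: p u :: p s :: (J1 ++ p c :: J2)).Perm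
                    (I1 ++ (p s :: J1 ++ (p d :: (I2 ++ [u, v, w, z, p z, p w, p v, p u]) ++ p c :: J2)))
                  have h2 : ((I1 ++ p d :: I2) ++ u :: v :: w :: z :: p z :: p w :: p v :: p u :: p s :: (J1 ++ p c :: J2)) =
                    I1 ++ ((p d :: (I2 ++ [u, v, w, z, p z, p w, p v, p u])) ++ ((p s :: J1) ++ (p c :: J2))) := by simp
                  have h3 : (I1 ++ (p s :: J1 ++ (p d :: (I2 ++ [u, v, w, z, p z, p w, p v, p u]) ++ p c :: J2))) =
                    I1 ++ ((p s :: J1) ++ ((p d :: (I2 ++ [u, v, w, z, p z, p w, p v, p u])) ++ (p c :: J2))) := by simp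
                  rw [h2, h3]
                  exact (List.perm_append_comm_assoc _ _ _).append_left _
              have h4 := NEST_rot hD (X := s :: S2 ++ d :: S1) (Y := c :: h :: A2)
                (B := I1 ++ (p s :: J1 ++ (p d :: (I2 ++ [u, v, w, z, p z, p w, p v, p u]) ++ p c :: J2)))
                (fun hh => by
                  have h5 := NEST_p1 hB c h u v w z (A2 ++ (s :: S2 ++ d :: S1)) (I1 ++ p s :: J1 ++ p d :: I2) J2
                    (by
                      have h6 := hrest _ hph hphc (hne h)
                      simp only [List.mem_append, List.mem_cons] at h6 ⊢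
                      tauto) (by simpa using hh)
                  simpa using h5)
                (by simpa using hG2)
              simpa using h4)
          simpa using h1
    rcases hA h hmem with h1 | h1 | h1 | h1
    · exact hbe (by rw [h1]; exact h1 ▸ hpx) (Or.inl h1)
    · exact hbe (by rw [h1, hinv]; exact h1 ▸ hx) (Or.inr h1)
    · have hhx : h ≠ x := by
        rintro rfl
        have h2 := hG.nd
        rw [List.nodup_append] at h2
        exact h2.2.2 (p h) (List.mem_cons_of_mem _ hpx) (p h) (by simp [h1]) rfl
      have hhpx : h ≠ p x := by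
        rintro rfl
        rw [hinv] at h1
        have h2 := hG.nd
        rw [List.nodup_append] at h2
        exact h2.2.2 x (List.mem_cons_of_mem _ hx) x (by simp [h1]) rfl
      have h2 := NEST_rot hD (X := d :: A1) (Y := c :: h :: A2)
        (B := I ++ u :: v :: w :: z :: p z :: p w :: p v :: p u :: J)
        (fun hh => by
          simpa using NEST_al hB hinv hne c h x u v w z (A2 ++ d :: A1) I J h1 hc
            (hrest _ hx (Ne.symm hcx) (Ne.symm hhx)) (hrest _ hpx (Ne.symm hcpx) (Ne.symm hhpx)) (by simpa using hh))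
        (by simpa using hG)
      simpa using h2
    · exact absurd h1 (hA2 h (by simp))

/-- `x` and `p x` adjacent, the cluster first. -/
theorem NEST_adj (hD : DrC p Dr) (hB : BlueC p Dr) (hinv : ∀ t, p (p t) = t)
    (x u v w z : Ω) (M J : List Ω)
    (hM : ∀ t ∈ M, p t ∈ J) (hJM : ∀ t ∈ J, p t ∈ M) (hJ : J ≠ [])
    (hG : Gd p (x :: p x :: M, u :: v :: w :: z :: p z :: p w :: p v :: p u :: J)) :
    Dr (x :: p x :: M, u :: v :: w :: z :: p z :: p w :: p v :: p u :: J) := by
  have hndM : M.Nodup := by
    refine hG.nd.sublist ?_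
    show M.Sublist ((x :: p x :: M) ++ _)
    exact ((List.sublist_cons_self _ _).trans (List.sublist_cons_self _ _)).trans (List.sublist_append_left _ _)
  have hndJ : J.Nodup := by
    refine hG.nd.sublist ?_
    show J.Sublist ((x :: p x :: M) ++ ([u, v, w, z, p z, p w, p v, p u] ++ J))
    exact (List.sublist_append_right _ _).trans (List.sublist_append_right _ _)
  have hpinj : ∀ {s t : Ω}, p s = p t → s = t := fun {s t} h => by rw [← hinv s, h, hinv]
  -- the last letter of `M`
  have hMne : M ≠ [] := by
    obtain ⟨j, hj⟩ := List.exists_mem_of_ne_nil J hJ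
    exact List.ne_nil_of_mem (hJM j hj)
  obtain ⟨M0, k, rfl⟩ : ∃ (M0 : List Ω) (k : Ω), M = M0 ++ [k] :=
    ⟨M.dropLast, M.getLast hMne, (List.dropLast_append_getLast hMne).symm⟩
  obtain ⟨j, J', rfl⟩ : ∃ (j : Ω) (J' : List Ω), J = j :: J' := by
    cases J with
    | nil => exact absurd rfl hJ
    | cons j J' => exact ⟨j, J', rfl⟩
  obtain ⟨s, hs⟩ : ∃ s, s = p j := ⟨_, rfl⟩
  have hjs : j = p s := by rw [hs, hinv]
  subst hjs
  have hsM : s ∈ M0 ++ [k] := by
    have h1 := hJM (p s) (by simp)
    rwa [hinv] at h1
  by_cases hsk : s = k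
  · subst hsk
    have h1 := NEST_rot hD (X := x :: p x :: M0) (Y := [s])
      (B := u :: v :: w :: z :: p z :: p w :: p v :: p u :: p s :: J')
      (fun h => by
        simpa using NEST_p1 hB s x u v w z (p x :: M0) [] J' (by simp) (by simpa using h))
      (by simpa using hG)
    simpa using h1
  have hsM0 : s ∈ M0 := by
    simp only [List.mem_append, List.mem_singleton] at hsM
    exact hsM.resolve_right hsk
  obtain ⟨N1, N2, rfl⟩ := List.append_of_mem hsM0
  have hkJ : p k ∈ J' := by
    have h1 := hM k (by simp)
    rcases List.mem_cons.mp h1 with h2 | h2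
    · exact absurd (hpinj h2).symm hsk
    · exact h2
  cases N1 with
  | nil =>
    have hJ'ne : J' ≠ [] := List.ne_nil_of_mem hkJ
    obtain ⟨K, l, rfl⟩ : ∃ (K : List Ω) (l : Ω), J' = K ++ [l] :=
      ⟨J'.dropLast, J'.getLast hJ'ne, (List.dropLast_append_getLast hJ'ne).symm⟩
    by_cases hl : l = p k
    · subst hl
      -- PA after the deletion of `z` and of `w`
      have h1 := NEST_del hD hinv z (x :: p x :: s :: N2 ++ [k]) [u, v, w] (p w :: p v :: p u :: p s :: K ++ [p k])
        (by simpa using hG) (fun hG1 => by
          have h2 := NEST_del hD hinv w (x :: p x :: s :: N2 ++ [k]) [u, v] (p v :: p u :: p s :: K ++ [p k])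
            (by simpa using hG1) (fun hG2 => by
              have h3 := hB.PA s k x u v N2 K (by simpa using hG2) (by
                intro t ht
                have h4 := hM t (by simp [ht])
                have h5 : t ≠ s := by
                  rintro rfl
                  simp only [List.nil_append, List.cons_append, List.nodup_cons, List.mem_append] at hndM
                  exact hndM.1 (Or.inl ht)
                have h6 : t ≠ k := by
                  rintro rfl
                  simp only [List.nil_append, List.cons_append, List.nodup_cons, List.nodup_append] at hndM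
                  exact hndM.2.2.2 t ht t (by simp) rfl
                simp only [List.mem_cons, List.mem_append, List.not_mem_nil, or_false] at h4
                rcases h4 with h4 | h4 | h4
                · exact absurd (hpinj h4) h5
                · exact h4
                · exact absurd (hpinj h4) h6) (by
                intro t ht
                have h4 := hJM t (by simp [ht])
                have h5 : p t ≠ s := by
                  rintro rfl
                  simp only [hinv, List.nodup_cons, List.mem_append] at hndJ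
                  exact hndJ.1 (Or.inl ht)
                have h6 : p t ≠ k := by
                  rintro rfl
                  simp only [hinv, List.nodup_cons, List.nodup_append] at hndJ
                  exact hndJ.2.2.2 t ht t (by simp) rfl
                simp only [List.nil_append, List.mem_cons, List.mem_append, List.not_mem_nil, or_false] at h4
                rcases h4 with (h4 | h4) | h4
                · exact absurd h4 h5
                · exact h4
                · exact absurd h4 h6)
              simpa using h3)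
          simpa using h2)
      simpa using h1
    · -- DE1
      have hlJ : l ∈ p s :: (K ++ [l]) := by simp
      have hlM := hJM l hlJ
      have hls : l ≠ p s := by
        rintro rfl
        simp only [List.nodup_cons, List.mem_append, List.mem_singleton, or_true, not_true_eq_false, false_and] at hndJ
      obtain ⟨b, hb⟩ : ∃ b, b = p l := ⟨_, rfl⟩
      have hlb : l = p b := by rw [hb, hinv]
      subst hlb
      rw [hinv] at hlM
      have hbs : b ≠ s := fun h => hls (by rw [h])
      have hbk : b ≠ k := fun h => hl (by rw [h])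
      have hbN : b ∈ N2 := by
        simp only [List.nil_append, List.mem_cons, List.mem_append, List.not_mem_nil, or_false] at hlM
        rcases hlM with (h | h) | h
        · exact absurd h hbs
        · exact h
        · exact absurd h hbk
      have hkK : p k ∈ K := by
        simp only [List.mem_append, List.mem_singleton] at hkJ
        exact hkJ.resolve_right (fun h => hl h.symm)
      obtain ⟨P, Q, rfl⟩ := List.append_of_mem hbN
      obtain ⟨K1, K2, rfl⟩ := List.append_of_mem hkK
      have h1 := NEST_del hD hinv z (x :: p x :: s :: (P ++ b :: Q) ++ [k]) [u, v, w]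
        (p w :: p v :: p u :: p s :: (K1 ++ p k :: K2) ++ [p b]) (by simpa using hG) (fun hG1 => by
          have h2 := hB.DE1 s b k x u v w [] P Q [] [] K1 K2 [] (by simpa using hG1)
          simpa using h2)
      simpa using h1
  | cons m N1 =>
    have hms : m ≠ s := by
      rintro rfl
      simp only [List.cons_append, List.nodup_cons, List.mem_append, List.mem_cons, true_or, or_true, not_true_eq_false,
        false_and] at hndM
    have hmk : m ≠ k := by
      rintro rfl
      simp only [List.cons_append, List.nodup_cons, List.mem_append, List.mem_cons, true_or, or_true, not_true_eq_false,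
        false_and] at hndM
    have hmJ : p m ∈ J' := by
      have h1 := hM m (by simp)
      rcases List.mem_cons.mp h1 with h2 | h2
      · exact absurd (hpinj h2) hms
      · exact h2
    obtain ⟨J1, J2, rfl⟩ := List.append_of_mem hkJ
    rcases List.mem_append.mp hmJ with h1 | h1
    · -- `p m` before `p k`: DE2
      obtain ⟨J3, J4, rfl⟩ := List.append_of_mem h1
      have h1 := NEST_del hD hinv z (x :: p x :: (m :: N1 ++ s :: N2) ++ [k]) [u, v, w]
        (p w :: p v :: p u :: p s :: (J3 ++ p m :: J4 ++ p k :: J2)) (by simpa using hG) (fun hG1 => by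
          have h2 := hB.DE2 m s k x u v w [] N1 N2 [] [] J3 J4 J2 (by simpa using hG1)
          simpa using h2)
      simpa using h1
    · -- `p k` before `p m`: triple swap
      rcases List.mem_cons.mp h1 with h2 | h2
      · exact absurd (hpinj h2) hmk
      obtain ⟨J3, J4, rfl⟩ := List.append_of_mem h2
      have h3 := NEST_rot hD (X := x :: p x :: m :: N1) (Y := s :: N2 ++ [k])
        (B := u :: v :: w :: z :: p z :: p w :: p v :: p u :: p s :: (J1 ++ p k :: (J3 ++ p m :: J4)))
        (fun hG1 => by
          have h4 := hD.cm s k m N2 [x, p x] N1 [u, v, w, z, p z, p w, p v, p u] J1 J3 J4 (by simpa using hG1) (by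
            have hG2 : Gd p (k :: [x, p x] ++ (s :: N2 ++ m :: N1),
                [u, v, w, z, p z, p w, p v, p u] ++ (p k :: J3 ++ (p s :: J1 ++ p m :: J4))) := by
              refine NEST_perm hG1 ?_ ?_
              · show ((s :: N2 ++ [k]) ++ x :: p x :: m :: N1).Perm (k :: [x, p x] ++ (s :: N2 ++ m :: N1))
                have e1 : ((s :: N2 ++ [k]) ++ x :: p x :: m :: N1) = (s :: N2) ++ ([k, x, p x] ++ (m :: N1)) := by simp
                have e2 : (k :: [x, p x] ++ (s :: N2 ++ m :: N1)) = [k, x, p x] ++ ((s :: N2) ++ (m :: N1)) := by simp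
                rw [e1, e2]
                exact List.perm_append_comm_assoc _ _ _
              · show (u :: v :: w :: z :: p z :: p w :: p v :: p u :: p s :: (J1 ++ p k :: (J3 ++ p m :: J4))).Perm
                  ([u, v, w, z, p z, p w, p v, p u] ++ (p k :: J3 ++ (p s :: J1 ++ p m :: J4)))
                have e1 : (u :: v :: w :: z :: p z :: p w :: p v :: p u :: p s :: (J1 ++ p k :: (J3 ++ p m :: J4))) =
                  [u, v, w, z, p z, p w, p v, p u] ++ ((p s :: J1) ++ ((p k :: J3) ++ p m :: J4)) := by simp
                have e2 : ([u, v, w, z, p z, p w, p v, p u] ++ (p k :: J3 ++ (p s :: J1 ++ p m :: J4))) =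
                  [u, v, w, z, p z, p w, p v, p u] ++ ((p k :: J3) ++ ((p s :: J1) ++ p m :: J4)) := by simp
                rw [e1, e2]
                exact (List.perm_append_comm_assoc _ _ _).append_left _
            have h5 := NEST_p1 hB k x u v w z (p x :: (s :: N2 ++ m :: N1)) [] (J3 ++ (p s :: J1 ++ p m :: J4))
              (by simp) (by simpa using hG2)
            simpa using h5)
          simpa using h4)
        (by simpa using hG)
      simpa using h3

/-- the cluster first. -/
theorem NEST_nil (hD : DrC p Dr) (hB : BlueC p Dr) (hinv : ∀ t, p (p t) = t) (hne : ∀ t, p t ≠ t)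
    (x u v w z : Ω) (A J : List Ω) (hx : x ∈ A) (hpx : p x ∈ A)
    (hA : ∀ t ∈ A, t = x ∨ t = p x ∨ p t ∈ J) (hJA : ∀ t ∈ J, p t ∈ A) (hJ : J ≠ [])
    (hG : Gd p (A, u :: v :: w :: z :: p z :: p w :: p v :: p u :: J)) :
    Dr (A, u :: v :: w :: z :: p z :: p w :: p v :: p u :: J) := by
  have hpinj : ∀ {s t : Ω}, p s = p t → s = t := fun {s t} h => by rw [← hinv s, h, hinv]
  obtain ⟨A1, A2, rfl⟩ := List.append_of_mem hx
  refine NEST_rot hD (X := A1) (Y := x :: A2) ?_ hG
  intro hG
  obtain ⟨A', hA'⟩ : ∃ A', A' = A2 ++ A1 := ⟨_, rfl⟩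
  have e0 : x :: A2 ++ A1 = x :: A' := by rw [hA']; rfl
  rw [e0] at hG ⊢
  have hmem : ∀ t, t ∈ A1 ++ x :: A2 ↔ t = x ∨ t ∈ A' := by
    intro t
    rw [hA']
    simp only [List.mem_append, List.mem_cons]
    tauto
  simp only [hmem] at hA hJA hpx
  clear hmem e0 hA' hx
  have hpxA : p x ∈ A' := hpx.resolve_left (hne x)
  obtain ⟨Q, S, rfl⟩ := List.append_of_mem hpxA
  have hnd : (x :: (Q ++ p x :: S)).Nodup := by
    refine hG.nd.sublist ?_
    exact List.sublist_append_left _ _
  have hdis : ∀ t ∈ x :: (Q ++ p x :: S), t ∉ J := by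
    intro t ht htJ
    have h1 := hG.nd
    rw [List.nodup_append] at h1
    exact h1.2.2 t ht t (by simp [htJ]) rfl
  have hxJ : x ∉ J := hdis _ (by simp)
  have hpxJ : p x ∉ J := hdis _ (by simp)
  have hQ : ∀ t ∈ Q, t ≠ x ∧ t ≠ p x := by
    intro t ht
    constructor
    · rintro rfl
      rw [List.nodup_cons] at hnd
      exact hnd.1 (by simp [ht])
    · rintro rfl
      rw [List.nodup_cons, List.nodup_append] at hnd
      exact hnd.2.2.2 _ ht (p x) (by simp) rfl
  have hS : ∀ t ∈ S, t ≠ x ∧ t ≠ p x := by
    intro t ht
    constructor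
    · rintro rfl
      rw [List.nodup_cons] at hnd
      exact hnd.1 (by simp [ht])
    · rintro rfl
      rw [List.nodup_cons, List.nodup_append, List.nodup_cons] at hnd
      exact hnd.2.2.1.1 ht
  have hQJ : ∀ t ∈ Q, p t ∈ J := by
    intro t ht
    rcases hA t (Or.inr (by simp [ht])) with h | h | h
    · exact absurd h (hQ t ht).1
    · exact absurd h (hQ t ht).2
    · exact h
  have hSJ : ∀ t ∈ S, p t ∈ J := by
    intro t ht
    rcases hA t (Or.inr (by simp [ht])) with h | h | h
    · exact absurd h (hS t ht).1
    · exact absurd h (hS t ht).2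
    · exact h
  have hJQS : ∀ t ∈ J, p t ∈ Q ∨ p t ∈ S := by
    intro t ht
    rcases hJA t ht with h | h
    · exact absurd (by rw [← h, hinv]; exact ht) hpxJ
    · rcases List.mem_append.mp h with h | h
      · exact Or.inl h
      · rcases List.mem_cons.mp h with h | h
        · exact absurd (by rw [← hpinj h]; exact ht) hxJ
        · exact Or.inr h
  cases Q with
  | nil =>
    exact NEST_adj hD hB hinv x u v w z S J hSJ (fun t ht => (hJQS t ht).resolve_left (by simp)) hJ hG
  | cons q Q =>
    cases S with
    | nil =>
      have h1 := NEST_rot hD (X := x :: (q :: Q)) (Y := [p x])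
        (B := u :: v :: w :: z :: p z :: p w :: p v :: p u :: J)
        (fun h => by
          have h2 := NEST_adj hD hB hinv (p x) u v w z (q :: Q) J hQJ
            (fun t ht => (hJQS t ht).resolve_right (by simp)) hJ (by rw [hinv]; simpa using h)
          rw [hinv] at h2
          simpa using h2)
        (by simpa using hG)
      simpa using h1
    | cons s S =>
      have hq := hQJ q (by simp)
      have hs := hSJ s (by simp)
      have hqs : q ≠ s := by
        rintro rfl
        rw [List.nodup_cons, List.nodup_append] at hnd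
        exact hnd.2.2.2 q (by simp) q (by simp) rfl
      obtain ⟨J1, J2, rfl⟩ := List.append_of_mem hq
      rcases List.mem_append.mp hs with h1 | h1
      · -- `p s` first
        obtain ⟨J3, J4, rfl⟩ := List.append_of_mem h1
        have h2 := NEST_rot hD (X := x :: (q :: Q) ++ [p x]) (Y := s :: S)
          (B := u :: v :: w :: z :: p z :: p w :: p v :: p u :: (J3 ++ p s :: J4 ++ p q :: J2))
          (fun h => by
            have h3 := hB.GA s q x u v w z S [] Q [] J3 J4 J2 (by simpa using h)
            simpa using h3)
          (by simpa using hG)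
        simpa using h2
      · rcases List.mem_cons.mp h1 with h1 | h1
        · exact absurd (hpinj h1).symm hqs
        obtain ⟨J3, J4, rfl⟩ := List.append_of_mem h1
        have h2 := NEST_rot hD (X := [x]) (Y := q :: Q ++ p x :: s :: S)
          (B := u :: v :: w :: z :: p z :: p w :: p v :: p u :: (J1 ++ p q :: (J3 ++ p s :: J4)))
          (fun h => by
            have h3 := hB.GA q s (p x) u v w z Q [] S [] J1 J3 J4 (by simpa [hinv] using h)
            simpa [hinv] using h3)
          (by simpa using hG)
        simpa using h2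

/-- **SECTION 4**: four nested blue letters in a gap which is not the end gap. -/
theorem NEST : NEST_stmt.{u} := by
  intro Ω p Dr hinv hne hD hB x u v w z A I J hG hx hpx hA hIJ hJ
  cases I with
  | nil =>
    exact NEST_nil hD hB hinv hne x u v w z A J hx hpx (fun t ht => by
      rcases hA t ht with h | h | h | h
      · exact Or.inl h
      · exact Or.inr (Or.inl h)
      · simp at h
      · exact Or.inr (Or.inr h)) (fun t ht => hIJ t (by simpa using ht)) hJ hG
  | cons i I =>
    obtain ⟨d, hd⟩ : ∃ d, d = p i := ⟨_, rfl⟩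
    have hid : i = p d := by rw [hd, hinv]
    subst hid
    have hdA : d ∈ A := by
      have h := hIJ (p d) (by simp)
      rwa [hinv] at h
    have hdI : p d ∈ p d :: I := by simp
    obtain ⟨I', hI'⟩ : ∃ I', I' = p d :: I := ⟨_, rfl⟩
    rw [← hI'] at hdI hA hIJ hG ⊢
    have hxd : x ≠ d := by
      rintro rfl
      have h1 := hG.nd
      rw [List.nodup_append] at h1
      exact h1.2.2 (p x) hpx (p x) (List.mem_append_left _ hdI) rfl
    have hpxd : p x ≠ d := by
      rintro rfl
      rw [hinv] at hdI
      have h1 := hG.nd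
      rw [List.nodup_append] at h1
      exact h1.2.2 x hx x (List.mem_append_left _ hdI) rfl
    obtain ⟨A1, A2, rfl⟩ := List.append_of_mem hdA
    have hdJ : d ∉ I' ++ J := by
      intro h
      have h1 := hG.nd
      rw [List.nodup_append] at h1
      refine h1.2.2 d (by simp) d ?_ rfl
      simp only [List.mem_append, List.mem_cons] at h ⊢
      tauto
    refine NEST_rot hD (X := A1) (Y := d :: A2) ?_ hG
    intro hG
    have hm : ∀ t, t ∈ A1 ++ d :: A2 → t ≠ d → t ∈ A2 ++ A1 := by
      intro t ht h
      simp only [List.mem_append, List.mem_cons] at ht ⊢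
      tauto
    have h1 := NEST_I hD hB hinv hne x u v w z d (A2 ++ A1) I' J hdI (hm x hx hxd) (hm (p x) hpx hpxd)
      (fun t ht => hA t (by
        simp only [List.mem_append, List.mem_cons] at ht ⊢
        tauto))
      (fun t ht => hm _ (hIJ t (List.mem_append_right _ ht)) (by
        rintro h
        -- `t = p d ∈ I'`, in `J` too
        have h2 : t = p d := by rw [← h, hinv]
        subst h2
        have h3 := hG.nd
        rw [List.nodup_append] at h3
        have h4 := h3.2.1
        rw [List.nodup_append] at h4
        exact h4.2.2 (p d) hdI (p d) (by simp [ht]) rfl)) hJ (by simpa using hG)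
    simpa using h1

end NTC
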